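import Pool.Agent.TH561.FP.OrdM

/-!
# Freely periodic knots are separated from the unknot by Vassiliev invariants whose order depends
# only on the period

`Pool.Agent.TH561.PK.Defs` contains the definitions:

* `Elem M`: an elementary tangle on `M` vertical strands: a crossing of one of the two kinds between
  the places `i` and `i + 1`, or a hook (the two lower points at the places `i`, `i + 1` are joined by a
  cap, the two upper points by a cup);
* `annular w dir`: the closure in the annulus of the tangle `w 0, w 1, …, w (L-1)` (one above the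
  other); its marked points are the points `(t, j)` (level `t ∈ ℤ/L`, place `j`);
* `Oriented w dir`: `dir` is an orientation of the curves of this diagram (`dir (t, j) = true`: upwards);
* `linking dir t`: number of the strands directed upwards minus number of the strands directed
  downwards at the level `t`, which is the linking number with the axis of the annulus;
* `IsKnot D`: all marked points are on one curve.

`pw n w` (in `Pool.Agent.TH561.PK.Knot`) is the word `w` repeated `n` times, and `freeWord n w a` (in
`Pool.Agent.TH561.FP.Defs`) is `pw n w` followed by `a` full twists on all `M` strands, that is by the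
word `(σ_0 σ_1 ⋯ σ_{M-2})^M` repeated `|a|` times, with crossings of the kind given by the sign of `a`.
So `annular (freeWord n w a) dir` is a knot which is invariant under a rotation of order `n` around the
axis of the annulus combined with a rotation along the axis; if `a` is prime to `n` this is a free
action of `ℤ/n` on the 3-sphere.

`Dia`, `Move`, `IsVassiliev`, `Separated d X Y` (an integer valued Vassiliev invariant of oriented
links of order at most `d` takes different values on `X` and `Y`) and `unknot` are in
`Pool.Agent.H832R3.VJ.Defs`, `Diagram` and `Diagram.IsClosed` in `Pool.Agent.H891R2.Jones.Diagram`.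
-/

set_option autoImplicit false

namespace Pool.Agent.Results.MP_5f6b43_gt.FreelyPeriodicOrder

open Pool.Agent.H891R2.Jones Pool.Agent.TH561.PK Pool.Agent.TH561.FP
open Pool.Agent.H832R3.VJ (Separated unknot)

/-- Let `D` be a knot diagram which is the closure in the annulus of `w ^ n` followed by `a` full
twists, and let `λ` be its linking number with the axis.  Let `q = p^k ≥ 4` be a power of a prime `p`
which divides `n`.  If `p` is odd and `q` divides none of `λ-1`, `λ+1`, `aλ-1`, `aλ+1`, then `D` is
separated from the unknot by a Vassiliev invariant of order at most `q - 2`.  If `p = 2` and `q` divides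
none of `2(λ-1)`, `2(λ+1)`, `aλ-1`, `aλ+1`, then `D` is separated from the unknot by a Vassiliev
invariant of order at most `4q - 9`. -/
theorem result (M l n : ℕ) (hl : 0 < l) (hn : 0 < n) (w : Fin l → Elem M) (a : ℤ)
    (dir : Fin (n * l + a.natAbs * (M * (M - 1))) × Fin M → Bool)
    (ho : Oriented (freeWord n w a) dir) (hK : IsKnot (annular (freeWord n w a) dir)) :
    (annular (freeWord n w a) dir).IsClosed ∧
    (∀ t t', linking dir t = linking dir t') ∧
    (∀ p k : ℕ, p.Prime → p ≠ 2 → 4 ≤ p ^ k → p ^ k ∣ n → ∀ t,
      ¬ (p ^ k : ℤ) ∣ linking dir t - 1 → ¬ (p ^ k : ℤ) ∣ linking dir t + 1 →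
      ¬ (p ^ k : ℤ) ∣ a * linking dir t - 1 → ¬ (p ^ k : ℤ) ∣ a * linking dir t + 1 →
      Separated (p ^ k - 2) ⟨_, inferInstance, annular (freeWord n w a) dir⟩ unknot) ∧
    (∀ k : ℕ, 2 ≤ k → 2 ^ k ∣ n → ∀ t,
      ¬ (2 ^ k : ℤ) ∣ 2 * (linking dir t - 1) → ¬ (2 ^ k : ℤ) ∣ 2 * (linking dir t + 1) →
      ¬ (2 ^ k : ℤ) ∣ a * linking dir t - 1 → ¬ (2 ^ k : ℤ) ∣ a * linking dir t + 1 →
      Separated (4 * 2 ^ k - 9) ⟨_, inferInstance, annular (freeWord n w a) dir⟩ unknot) := by
  have hM : 0 < M := by
    have := (w ⟨0, hl⟩).2.2
    omega
  refine ⟨annular_closed _ dir ho, linking_const _ dir ho, ?_, ?_⟩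
  · intro p k hp hp2 hq hpn t h1 h2 h3 h4
    by_contra hS
    have hS' : ¬ Separated (ord p (p ^ k)) ⟨_, inferInstance, annular (freeWord n w a) dir⟩ unknot := by
      unfold ord
      rw [if_neg hp2]
      exact hS
    have h5 := order_main_n p hp k n hq hpn hn hM w hl a dir ho hK hS' t
    have hcop : IsCoprime ((p : ℤ) ^ k) 2 := by
      apply IsCoprime.pow_left
      rw [Int.isCoprime_iff_gcd_eq_one]
      have : Nat.Coprime p 2 := (Nat.coprime_primes hp Nat.prime_two).2 hp2
      exact_mod_cast this
    rcases h5 with h5 | h5 | h5 | h5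
    · exact h1 (hcop.dvd_of_dvd_mul_left h5)
    · exact h2 (hcop.dvd_of_dvd_mul_left h5)
    · exact h3 h5
    · exact h4 h5
  · intro k hk hpn t h1 h2 h3 h4
    by_contra hS
    have hq : 4 ≤ 2 ^ k := by
      calc 4 = 2 ^ 2 := by norm_num
        _ ≤ 2 ^ k := Nat.pow_le_pow_right (by norm_num) hk
    have hS' : ¬ Separated (ord 2 (2 ^ k)) ⟨_, inferInstance, annular (freeWord n w a) dir⟩ unknot := by
      unfold ord
      rw [if_pos rfl]
      exact hS
    have h5 := order_main_n 2 Nat.prime_two k n hq hpn hn hM w hl a dir ho hK hS' t
    push_cast at h5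
    rcases h5 with h5 | h5 | h5 | h5
    · exact h1 h5
    · exact h2 h5
    · exact h3 h5
    · exact h4 h5

end Pool.Agent.Results.MP_5f6b43_gt.FreelyPeriodicOrder
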