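import Pool.Agent.TH561.AD.Rig
import Pool.Agent.TH561.AD.Comp

/-!
# The orders needed to detect the members of a family of freely periodic knots

`Pool.Agent.TH561.PK.Defs` contains the definitions:

* `Elem M`: an elementary tangle on `M` vertical strands: a crossing of one of the two kinds between
  the places `i` and `i + 1`, or a hook (the two lower points at the places `i`, `i + 1` are joined by a
  cap, the two upper points by a cup);
* `annular w dir`: the closure in the annulus of the tangle `w 0, w 1, …, w (L-1)` (one above the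
  other); its marked points are the points `(t, j)` (level `t ∈ ℤ/L`, place `j`);
* `Oriented w dir`: `dir` is an orientation of the curves of this diagram (`dir (t, j) = true`: upwards);
* `IsKnot D`: all marked points are on one curve.

`freeWord n w a` (in `Pool.Agent.TH561.FP.Defs`) is the word `w` repeated `n` times, followed by `a`
full twists on all `M` strands, that is by the word `(σ_0 σ_1 ⋯ σ_{M-2})^M` repeated `|a|` times, with
crossings of the kind given by the sign of `a`.  So `annular (freeWord n w a) dir` is a knot with a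
symmetry of order `n` (a free one if `a` is prime to `n`, the quotient being a knot in the lens space
`L(n, a)`).  These knots, for all `n` and `a`, are the family of `w`.

`Generic q a M` (in `Pool.Agent.TH561.AD.Gen`): `q` divides none of the numbers `a i - 1`, `a i + 1`,
`1 ≤ i ≤ M` (these are all integers outside of at most `2 M` residue classes modulo `q`).
`red p f` is the Laurent polynomial `f` with coefficients modulo `p`.  `Dia`, `IsVassiliev`,
`Separated d X Y` (an integer valued Vassiliev invariant of oriented links of order at most `d` takes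
different values on `X` and `Y`) and `unknot` are in `Pool.Agent.H832R3.VJ.Defs`, `Diagram`,
`Diagram.IsClosed` and `Diagram.fPoly` (the normalised Kauffman bracket) in
`Pool.Agent.H891R2.Jones.Diagram`.
-/

set_option autoImplicit false

namespace Pool.Agent.Results.MP_5f6b43_gt.OrderRigidity

open LaurentPolynomial Pool.Agent.H891R2.Jones Pool.Agent.TH561 Pool.Agent.TH561.PK
  Pool.Agent.TH561.FP Pool.Agent.TH561.AD
open Pool.Agent.H832R3.VJ (Separated unknot fPoly_unknot)

/-- Let `p > M + 1` be a prime, and let `D` be a knot diagram which is the closure in the annulus of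
`w ^ q` followed by `a` full twists on all `M` strands, `q = p ^ k`, `k ≥ 1`, with `a` generic for `q`.
Let `D'` be any other knot of this kind, the closure of `w ^ q'` followed by `a'` full twists,
`q' = p ^ k'`, `k' ≥ 0`, `a'` any integer.  Let `m ≥ 1`.

* If `f_D ≡ 1` modulo `(p, (A - 1) ^ (q m))`, then `f_{D'} ≡ 1` modulo `(p, (A - 1) ^ (q' m))`.  If
  `k' ≥ 1` and `a'` is generic for `q'` too, then the converse holds.  (So the order of vanishing of
  `f_D - 1` modulo `p` at `A = 1`, divided by `q` and rounded down, is the same number for all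
  generic members of the family.)
* If `f_{D'}` is not congruent to `1` modulo `(p, (A - 1) ^ (q' m))`, then a Vassiliev invariant of
  order less than `q m` takes different values on `D` and on the unknot.
* Let `l` be the number of letters of `w` and `p > 2 ^ (M + 2 l) + 1`.  If `f_D ≡ 1` modulo `p`, then
  `f_{D''} ≡ 1` modulo `p''` for every odd prime `p''` and every knot `D''` which is the closure of a
  `p'' ^ k''`-th power of `w` followed by any number `a''` of full twists. -/
theorem result (M l : ℕ) (hl : 0 < l) (w : Fin l → Elem M) (p k : ℕ) (hp : p.Prime) (hMp : M + 1 < p)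
    (hk : 1 ≤ k) (a : ℤ) (ha : Generic ((p ^ k : ℕ) : ℤ) a M)
    (dir : Fin (p ^ k * l + a.natAbs * (M * (M - 1))) × Fin M → Bool)
    (ho : Oriented (freeWord (p ^ k) w a) dir) (hK : IsKnot (annular (freeWord (p ^ k) w a) dir)) :
    (annular (freeWord (p ^ k) w a) dir).IsClosed ∧
    (∀ (k' : ℕ) (a' : ℤ) (dir' : Fin (p ^ k' * l + a'.natAbs * (M * (M - 1))) × Fin M → Bool),
      Oriented (freeWord (p ^ k') w a') dir' → IsKnot (annular (freeWord (p ^ k') w a') dir') →
      ∀ m : ℕ, 1 ≤ m →
        ((T 1 - 1 : (ZMod p)[T;T⁻¹]) ^ (p ^ k * m) ∣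
            red p (annular (freeWord (p ^ k) w a) dir).fPoly - 1 →
          (T 1 - 1 : (ZMod p)[T;T⁻¹]) ^ (p ^ k' * m) ∣
            red p (annular (freeWord (p ^ k') w a') dir').fPoly - 1) ∧
        (1 ≤ k' → Generic ((p ^ k' : ℕ) : ℤ) a' M →
          (T 1 - 1 : (ZMod p)[T;T⁻¹]) ^ (p ^ k' * m) ∣
            red p (annular (freeWord (p ^ k') w a') dir').fPoly - 1 →
          (T 1 - 1 : (ZMod p)[T;T⁻¹]) ^ (p ^ k * m) ∣
            red p (annular (freeWord (p ^ k) w a) dir).fPoly - 1) ∧
        (¬ (T 1 - 1 : (ZMod p)[T;T⁻¹]) ^ (p ^ k' * m) ∣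
            red p (annular (freeWord (p ^ k') w a') dir').fPoly - 1 →
          Separated (p ^ k * m - 1) ⟨_, inferInstance, annular (freeWord (p ^ k) w a) dir⟩ unknot)) ∧
    (2 ^ (M + 2 * l) + 1 < p → red p (annular (freeWord (p ^ k) w a) dir).fPoly = 1 →
      ∀ p'' : ℕ, p''.Prime → p'' ≠ 2 → ∀ (k'' : ℕ) (a'' : ℤ)
        (dir'' : Fin (p'' ^ k'' * l + a''.natAbs * (M * (M - 1))) × Fin M → Bool),
        Oriented (freeWord (p'' ^ k'') w a'') dir'' →
        IsKnot (annular (freeWord (p'' ^ k'') w a'') dir'') →
        red p'' (annular (freeWord (p'' ^ k'') w a'') dir'').fPoly = 1) := by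
  have hM : 1 < M := by
    have := (w ⟨0, hl⟩).2.2
    omega
  have : Fact p.Prime := ⟨hp⟩
  have hpos : 0 < p ^ k := Nat.pow_pos hp.pos
  refine ⟨annular_closed _ dir ho, fun k' a' dir' ho' hK' m hm => ⟨fun hf => ?_, fun hk' ha' hf => ?_,
    fun hf => ?_⟩, fun hbig hf p'' hp'' hp2 k'' a'' dir'' ho'' hK'' => ?_⟩
  · exact rig_order p hMp hl hM w k hk a ha dir ho hK k' a' dir' ho' hK' m hm hf
  · exact rig_order p hMp hl hM w k' hk' a' ha' dir' ho' hK' k a dir ho hK m hm hf
  · by_contra hS
    apply hf
    have h1 := red_T_sub_one p _ _ (dvd_of_not_separated _ _ _ hS)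
    rw [fPoly_unknot, Nat.sub_add_cancel (Nat.mul_pos hpos hm), map_sub, map_one] at h1
    exact rig_order p hMp hl hM w k hk a ha dir ho hK k' a' dir' ho' hK' m hm h1
  · have : Fact p''.Prime := ⟨hp''⟩
    exact rig_primes p hbig hl hM w k hk a ha dir ho hK hf p'' k'' hp2 a'' dir'' ho'' hK''

end Pool.Agent.Results.MP_5f6b43_gt.OrderRigidity
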